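import Pool.Agent.MMS36.Final

/-!
# The Manickam-Miklos-Singhi bound for all `n ≥ 4k`

Outline of the proof. Let `L(n)` be the least fraction of nonnegative `k`-sums over all families
of `n` reals with nonnegative total.

* Reduction to coprime pairs `(4k + j, k)`, `0 < j < k` (block construction and the step from
  `n - k` to `n`).
* A failing family has a small conditional fraction of nonnegative sets containing a given
  element (stage A), by a correlation bound for disjoint sets.
* The window method: with the sum of squares normalised to one, identities for pairs of elements
  and random sets avoiding them are combined linearly; a certificate is a choice of piecewise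
  polynomial multipliers for which the resulting function of `(a, b, y)` is nonnegative. It is
  valid for a whole box of the parameters `k / n` and `1 / n`, and its nonnegativity is checked by
  Bernstein coefficients on a grid of tetrahedra, by a verified integer computation in the kernel.
* Levels: `(2k + j, k)` by a spectral bound, `(3k + j, k)` and `(4k + j, k)` by certificates.
  Twenty-six certificates suffice: sixteen boxes for all `n ≥ 20`, and ten for the five pairs with
  `n < 20`.
-/

set_option autoImplicit false

namespace Pool.Agent.Results.MP_6af1d5_co.FourK

/-- The Manickam-Miklos-Singhi bound for all `n ≥ 4k`, for families of real numbers. Taking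
`ι = ℝ`, `x = id` gives the case of sets of real numbers. -/
theorem result (n k : ℕ) (hk : 0 < k) (hn : 4 * k ≤ n) (ι : Type) (V : Finset ι) (x : ι → ℝ)
    (hV : V.card = n) (hx : 0 ≤ ∑ i ∈ V, x i) :
    (n - 1).choose (k - 1) ≤
      ((V.powersetCard k).filter (fun B => 0 ≤ ∑ i ∈ B, x i)).card :=
  Pool.Agent.MMS36.mms_family n k hk hn ι V x hV hx

end Pool.Agent.Results.MP_6af1d5_co.FourK
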